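import Mathlib
import Pool.Agent.Results.MP_2087e7_lc.MeagerNullNotPerfectlyNull
import Pool.Agent.Helper292.ForceCH

set_option autoImplicit false

/-!
# MP_2087e7_lc, Q1: it is consistent that every perfect Polish space contains a set which is
countably perfectly meager and universally null, but not countably perfectly null
-/

namespace Pool.Agent.Results.MP_2087e7_lc.ConsistentlyDifferent

open Pool.Agent.H341Q.PN

universe u

/-- (1) Some notion of forcing forces that `ω₁` is preserved and that the continuum hypothesis
holds. (2) The continuum hypothesis implies that every nonempty perfect Polish space contains a set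
that is countably perfectly meager and universally null, but not countably perfectly null. -/
theorem result :
    (∃ (P : Type) (_ : Preorder P), Nonempty P ∧ ∀ p : P,
      p ∈ Pool.Agent.Helper292.ForceCH.OmegaOnePreserved P ∧
      p ∈ Pool.Agent.Helper292.ForceCH.CHHolds P) ∧
    (Cardinal.aleph 1 = Cardinal.continuum.{0} →
      ∀ (X : Type u) [TopologicalSpace X] [PolishSpace X] [PerfectSpace X] [Nonempty X]
        [MeasurableSpace X] [BorelSpace X],
        ∃ A : Set X, CountablyPerfectlyMeager A ∧ UniversallyNull A ∧
          ¬ CountablyPerfectlyNull A) := by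
  refine ⟨?_, fun hCH => (MeagerNullNotPerfectlyNull.result hCH.symm).1⟩
  obtain ⟨P, i, h1, h2⟩ := Pool.Agent.Helper292.ForceCH.exists_forcing
  exact ⟨P, i, h1, fun p => ⟨(h2 p).1, (h2 p).2.2⟩⟩

end Pool.Agent.Results.MP_2087e7_lc.ConsistentlyDifferent
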